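import Pool.Agent.U152.NW.Thy

/-!
Congruences for the numbers of Jordan blocks.
-/

namespace Pool.Agent.U152.PE

open Pool.Agent.U152.HN Pool.Agent.U152.NW

universe u

lemma general {ι : Type u} (L : ι → Multiset ℝ) (cyc : ι → ι) (g : ℕ) {ℓ : ℕ} (hℓ : ℓ.Prime)
    (hodd : ℓ ≠ 2)
    (hdim : ∀ A, ℓ * (L (cyc A)).card = ((L A).card ^ ℓ + (ℓ - 1) * (L A).card) * 4 ^ g)
    (hlogs : ∀ A, (ℓ : RR) * mpoly (L (cyc A)) =
      (mpoly (L A) ^ ℓ + ((ℓ : RR) - 1) * psi ℓ (mpoly (L A))) * (4 : RR) ^ g)
    (h : ∀ (A : ι) (c : ℝ), c ≠ 0 → ℓ ∣ (L A).count c) (A : ι)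
    (c : ℝ) (hc : c ≠ 0) : (L A).count c = 0 := by
  have h1 : ∀ k, 1 ≤ k → ∀ A, (ℓ : RR) ^ k ∣ mpoly (L A) - ((L A).card : RR) := by
    intro k hk
    induction k, hk using Nat.le_induction with
    | base =>
      intro A
      rw [pow_one, dvd0 hℓ.pos]
      have h2 : ∀ a, a ≠ 0 → (ℓ : ℤ) ∣ ((L A).count a : ℤ) := fun a ha => by
        exact_mod_cast h A a ha
      intro a
      rw [sub_coeff, mpoly_coeff, natCast_coeff]
      by_cases ha : a = 0
      · subst ha
        rw [if_pos rfl]
        classical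
        have h3 : ((L A).card : ℤ) =
            ∑ b ∈ (L A).toFinset, ((L A).count b : ℤ) := by
          exact_mod_cast (Multiset.toFinset_sum_count_eq (L A)).symm
        by_cases h0 : (0 : ℝ) ∈ (L A).toFinset
        · rw [h3, ← Finset.add_sum_erase _ _ h0]
          have h4 : (ℓ : ℤ) ∣ ∑ b ∈ (L A).toFinset.erase 0, ((L A).count b : ℤ) :=
            Finset.dvd_sum fun b hb => h2 b (Finset.ne_of_mem_erase hb)
          have h5 : ((L A).count 0 : ℤ) - (((L A).count 0 : ℤ) +
              ∑ b ∈ (L A).toFinset.erase 0, ((L A).count b : ℤ)) =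
              - ∑ b ∈ (L A).toFinset.erase 0, ((L A).count b : ℤ) := by ring
          rw [h5]
          exact (dvd_neg).2 h4
        · have h6 : (L A).count 0 = 0 := by
            rw [Multiset.count_eq_zero]
            intro h7
            exact h0 (Multiset.mem_toFinset.2 h7)
          rw [h6, h3]
          have h4 : (ℓ : ℤ) ∣ ∑ b ∈ (L A).toFinset, ((L A).count b : ℤ) :=
            Finset.dvd_sum fun b hb => h2 b (fun hb0 => h0 (hb0 ▸ hb))
          simpa using h4
      · rw [if_neg ha, sub_zero]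
        exact h2 a ha
    | succ k hk ih =>
      intro A
      have e1 : (ℓ : RR) * mpoly (L (cyc A)) =
          (mpoly (L A) ^ ℓ + ((ℓ : RR) - 1) * psi ℓ (mpoly (L A))) *
            (4 : RR) ^ g := hlogs A
      have e2 : (ℓ : RR) * ((L (cyc A)).card : RR) =
          (((L A).card : RR) ^ ℓ + ((ℓ : RR) - 1) * psi ℓ ((L A).card : RR)) *
            (4 : RR) ^ g := by
        rw [map_natCast]
        have h3 := congrArg (fun n : ℕ => (n : RR)) (hdim A)
        have h4 : ((ℓ - 1 : ℕ) : RR) = (ℓ : RR) - 1 := by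
          rw [Nat.cast_sub hℓ.one_le, Nat.cast_one]
        simp only [Nat.cast_mul, Nat.cast_add, Nat.cast_pow, h4, Nat.cast_ofNat] at h3
        exact h3
      refine step ℓ (mem_nonZeroDivisors_of_ne_zero (natCast_ne hℓ.pos)) (psi ℓ)
        ((4 : RR) ^ g) ?_ k hk _ _ _ _ (ih A) (ih (cyc A)) e1 e2
      intro d hd
      apply dvd_of_psi hℓ.pos
      rw [dvd0 hℓ.pos] at hd ⊢
      intro a
      have h5 := hd a
      have h6 : psi ℓ d * (4 : RR) ^ g = ((4 ^ g : ℕ) : RR) * psi ℓ d := by
        push_cast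
        ring
      rw [h6, natCast_mul_coeff] at h5
      have h7 : IsCoprime (ℓ : ℤ) ((4 ^ g : ℕ) : ℤ) := by
        rw [Nat.isCoprime_iff_coprime]
        refine Nat.Coprime.pow_right _ ?_
        have : Nat.Coprime ℓ 2 := (Nat.coprime_primes hℓ Nat.prime_two).2 hodd
        exact this.mul_right this
      exact h7.dvd_of_dvd_mul_left h5
  have h2 : ∀ k, (ℓ : ℤ) ^ k ∣ ((L A).count c : ℤ) := by
    intro k
    rcases Nat.eq_zero_or_pos k with rfl | hk
    · simp
    · have h3 := h1 k hk A
      have h4 : (ℓ : RR) ^ k = ((ℓ ^ k : ℕ) : RR) := by push_cast; rfl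
      rw [h4, dvd0 (pow_pos hℓ.pos k)] at h3
      have h5 := h3 c
      rw [sub_coeff, mpoly_coeff, natCast_coeff, if_neg hc, sub_zero] at h5
      exact_mod_cast h5
  by_contra h0
  have h3 := Nat.le_of_dvd (Nat.pos_of_ne_zero h0)
    (by exact_mod_cast h2 ((L A).count c) :
      ℓ ^ ((L A).count c) ∣ (L A).count c)
  exact absurd h3 (not_le.2 (Nat.lt_pow_self hℓ.one_lt))

/-- The weights `n - 1, n - 3, ..., 1 - n` of the representation of dimension `n` of `sl_2`. -/
noncomputable def wtsOf (n : ℕ) : Multiset ℝ :=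
  (Multiset.range n).map fun j : ℕ => (n : ℝ) - 1 - 2 * (j : ℝ)

/-- The weights of a sum of representations of `sl_2` of the given dimensions. -/
noncomputable def wts (B : Multiset ℕ) : Multiset ℝ := B.bind wtsOf

lemma dvd_count {r : ℕ} (B : Multiset ℕ) (h : ∀ n, 2 ≤ n → r ∣ B.count n) (a : ℝ) (ha : a ≠ 0) :
    r ∣ (wts B).count a := by
  classical
  unfold wts
  rw [Multiset.count_bind, Finset.sum_multiset_map_count]
  refine Finset.dvd_sum fun n _ => ?_
  rw [smul_eq_mul]
  rcases Nat.lt_or_ge n 2 with hn | hn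
  · have h0 : (wtsOf n).count a = 0 := by
      rw [Multiset.count_eq_zero]
      intro hmem
      unfold wtsOf at hmem
      rw [Multiset.mem_map] at hmem
      obtain ⟨j, hj, hja⟩ := hmem
      rw [Multiset.mem_range] at hj
      have h1 : n = 1 := by omega
      have h2 : j = 0 := by omega
      subst h1
      subst h2
      apply ha
      rw [← hja]
      simp
    rw [h0, mul_zero]
    exact dvd_zero _
  · exact (h n hn).mul_right _

lemma mem_wts (B : Multiset ℕ) (n : ℕ) (hn : 2 ≤ n) (hB : n ∈ B) : ((n : ℝ) - 1) ∈ wts B := by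
  unfold wts
  rw [Multiset.mem_bind]
  refine ⟨n, hB, ?_⟩
  unfold wtsOf
  rw [Multiset.mem_map]
  exact ⟨0, Multiset.mem_range.2 (by omega), by simp⟩

/-- Pairs `A = (X, f)` of a smooth projective variety over an algebraically closed field of
characteristic `p` and a polarized endomorphism `f` with multiplier a power of a fixed integer `q`;
`blocks A` are the sizes of the Jordan blocks of `f^*` on the sum of all `H^i (X)`;
`cyc (X, f) = ((X^r × E) / (ℤ/r), (f^k, ..., f^k, [q^(k j / 2)]))` for an elliptic curve `E` with a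
point of order `r`, where `r` is a prime number not dividing `2 p q`. -/
structure PolData (r : ℕ) where
  /-- the pairs -/
  Obj : Type u
  /-- the sizes of the Jordan blocks on the cohomology -/
  blocks : Obj → Multiset ℕ
  /-- the quotient -/
  cyc : Obj → Obj
  dim_cyc : ∀ A, r * (wts (blocks (cyc A))).card =
    ((wts (blocks A)).card ^ r + (r - 1) * (wts (blocks A)).card) * 4
  wts_cyc : ∀ A, (r : RR) * mpoly (wts (blocks (cyc A))) =
    (mpoly (wts (blocks A)) ^ r + ((r : RR) - 1) * psi r (mpoly (wts (blocks A)))) * 4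

namespace PolData

variable {r : ℕ} (T : PolData.{u} r)

/-- All the endomorphisms are diagonalizable on the cohomology. -/
def Semisimple : Prop := ∀ A : T.Obj, ∀ n ∈ T.blocks A, n ≤ 1

/-- For every `n ≥ 2` the number of the Jordan blocks of size `n` is divisible by `r`. -/
def Congruences : Prop := ∀ (A : T.Obj) (n : ℕ), 2 ≤ n → r ∣ (T.blocks A).count n

variable {T}

theorem main (hr : r.Prime) (hodd : r ≠ 2) : T.Semisimple ↔ T.Congruences := by
  constructor
  · intro h A n hn
    have h0 : (T.blocks A).count n = 0 := by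
      rw [Multiset.count_eq_zero]
      intro hm
      have := h A n hm
      omega
    rw [h0]
    exact dvd_zero _
  · intro h A n hn
    by_contra hn1
    have hn2 : 2 ≤ n := by omega
    have h1 := general (fun A => wts (T.blocks A)) T.cyc 1 hr hodd
      (fun A => by simpa using T.dim_cyc A) (fun A => by simpa using T.wts_cyc A)
      (fun A c hc => dvd_count (T.blocks A) (h A) c hc) A ((n : ℝ) - 1) (by
        have : (2 : ℝ) ≤ n := by exact_mod_cast hn2
        intro h0
        linarith)
    rw [Multiset.count_eq_zero] at h1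
    exact h1 (mem_wts _ n hn2 hn)

end PolData

end Pool.Agent.U152.PE
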